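import Mathlib

/-!
# A covering lemma
-/

namespace Pool.Agent.H634R2.Neg

open Finset

/-- Averaging over one coordinate. -/
theorem sum_update {m : ℕ} {α : Type*} [Fintype α] [DecidableEq α] (i : Fin m)
    (F : (Fin m → α) → ℕ) :
    ∑ p : Fin m → α, ∑ a : α, F (Function.update p i a) = Fintype.card α * ∑ p, F p := by
  rw [← Finset.sum_product']
  have h : ∑ x : (Fin m → α) × α, F (Function.update x.1 i x.2) =
      ∑ x : (Fin m → α) × α, F x.1 := by
    let e : (Fin m → α) × α ≃ (Fin m → α) × α :=
      { toFun := fun x => (Function.update x.1 i x.2, x.1 i)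
        invFun := fun x => (Function.update x.1 i x.2, x.1 i)
        left_inv := fun x => by simp
        right_inv := fun x => by simp }
    exact Fintype.sum_equiv e _ _ (fun x => rfl)
  change ∑ x ∈ (univ ×ˢ univ : Finset ((Fin m → α) × α)), F (Function.update x.1 i x.2) = _
  rw [Finset.univ_product_univ, h, ← Finset.univ_product_univ, Finset.sum_product]
  simp [Finset.mul_sum]

/-- If for every `m`-tuple of elements of the nonempty finite type `α` some coordinate belongs to
the set attached to the other coordinates, then one of these sets contains at least the fraction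
`1 / m` of `α`. -/
theorem exists_big {m : ℕ} {α : Type*} [Fintype α] [Nonempty α] [DecidableEq α]
    (g : Fin m → (Fin m → α) → α → Prop) [∀ i p a, Decidable (g i p a)]
    (hind : ∀ i p a, g i (Function.update p i a) = g i p)
    (hcov : ∀ p : Fin m → α, ∃ i, g i p (p i)) :
    ∃ i p, Fintype.card α ≤ m * (univ.filter (g i p)).card := by
  by_contra hcon
  push Not at hcon
  have hN : 0 < Fintype.card (Fin m → α) := Fintype.card_pos
  -- total count
  have h1 : Fintype.card (Fin m → α) ≤
      ∑ p : Fin m → α, ∑ i : Fin m, (if g i p (p i) then 1 else 0) := by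
    rw [Fintype.card_eq_sum_ones]
    apply Finset.sum_le_sum
    intro p _
    obtain ⟨i, hi⟩ := hcov p
    calc 1 = (if g i p (p i) then 1 else 0) := by rw [if_pos hi]
      _ ≤ ∑ i : Fin m, (if g i p (p i) then 1 else 0) :=
        Finset.single_le_sum (f := fun i => if g i p (p i) then 1 else 0)
          (fun _ _ => Nat.zero_le _) (Finset.mem_univ i)
  have h2 : ∀ i : Fin m, m * (Fintype.card α * ∑ p : Fin m → α, (if g i p (p i) then 1 else 0)) <
      Fintype.card α * Fintype.card (Fin m → α) := by
    intro i
    rw [← sum_update i (fun p => if g i p (p i) then 1 else 0)]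
    have h3 : ∀ p : Fin m → α, ∑ a : α, (if g i (Function.update p i a)
        (Function.update p i a i) then 1 else 0) = (univ.filter (g i p)).card := by
      intro p
      rw [Finset.card_filter]
      apply Finset.sum_congr rfl
      intro a _
      rw [Function.update_self]
      simp only [hind]
    simp only [h3]
    rw [Finset.mul_sum]
    calc ∑ p : Fin m → α, m * (univ.filter (g i p)).card
        < ∑ _p : Fin m → α, Fintype.card α := by
          apply Finset.sum_lt_sum_of_nonempty
          · exact Finset.univ_nonempty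
          · intro p _
            exact hcon i p
      _ = Fintype.card α * Fintype.card (Fin m → α) := by
          rw [Finset.sum_const, Finset.card_univ, smul_eq_mul, mul_comm]
  have hm : 0 < m := by
    obtain ⟨i, _⟩ := hcov (fun _ => Classical.arbitrary α)
    exact i.pos
  have h4 : m * (Fintype.card α * ∑ p : Fin m → α, ∑ i : Fin m, (if g i p (p i) then 1 else 0)) <
      m * (Fintype.card α * Fintype.card (Fin m → α)) := by
    rw [Finset.sum_comm, Finset.mul_sum, Finset.mul_sum]
    calc ∑ i : Fin m, m * (Fintype.card α * ∑ p : Fin m → α, (if g i p (p i) then 1 else 0))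
        < ∑ _i : Fin m, Fintype.card α * Fintype.card (Fin m → α) := by
          apply Finset.sum_lt_sum_of_nonempty
          · exact ⟨⟨0, hm⟩, Finset.mem_univ _⟩
          · intro i _
            exact h2 i
      _ = m * (Fintype.card α * Fintype.card (Fin m → α)) := by
          rw [Finset.sum_const, Finset.card_univ, Fintype.card_fin, smul_eq_mul]
  have h5 : m * (Fintype.card α * Fintype.card (Fin m → α)) ≤
      m * (Fintype.card α * ∑ p : Fin m → α, ∑ i : Fin m, (if g i p (p i) then 1 else 0)) := by
    gcongr
  omega

/-- Greedy covering: if for every `m`-tuple of elements of the finite set `P` some coordinate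
belongs to the set attached to the other coordinates, then `P` is covered by `t` of these sets
as soon as `|P| (m - 1)^t < m^t`. -/
theorem greedy {m : ℕ} {β : Type*} [DecidableEq β] (g : Fin m → (Fin m → β) → β → Prop)
    (hind : ∀ i p a, g i (Function.update p i a) = g i p) (t : ℕ) : ∀ P : Finset β,
    (∀ p : Fin m → β, (∀ i, p i ∈ P) → ∃ i, g i p (p i)) →
    P.card * (m - 1) ^ t < m ^ t →
    ∃ L : List (Fin m × (Fin m → β)), L.length ≤ t ∧ ∀ b ∈ P, ∃ z ∈ L, g z.1 z.2 b := by
  classical
  induction t with
  | zero =>
    intro P _ hP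
    refine ⟨[], le_rfl, fun b hb => ?_⟩
    have : P.card = 0 := by simpa using hP
    rw [Finset.card_eq_zero] at this
    simp [this] at hb
  | succ t ih =>
    intro P hcov hP
    rcases P.eq_empty_or_nonempty with rfl | hne
    · exact ⟨[], by simp, fun b hb => by simp at hb⟩
    · have : Nonempty {b // b ∈ P} := hne.to_subtype
      have hupd : ∀ (p : Fin m → {b // b ∈ P}) (i : Fin m) (a : {b // b ∈ P}),
          (fun j => (Function.update p i a j).1) = Function.update (fun j => (p j).1) i a.1 := by
        intro p i a
        funext j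
        by_cases h : j = i
        · subst h; simp
        · simp [Function.update_of_ne h]
      obtain ⟨i, p, hip⟩ := exists_big (α := {b // b ∈ P})
        (fun i p a => g i (fun j => (p j).1) a.1) (by
          intro i p a
          funext b
          rw [hupd, hind]) (by
          intro p
          exact hcov (fun j => (p j).1) (fun j => (p j).2))
      set q : Fin m → β := fun j => (p j).1 with hq
      have hcard : (univ.filter (fun a : {b // b ∈ P} => g i q a.1)).card =
          (P.filter (g i q)).card := by
        rw [← Finset.card_map (Function.Embedding.subtype _)]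
        congr 1
        ext b
        simp only [mem_map, mem_filter, mem_univ, true_and, Function.Embedding.coe_subtype,
          Subtype.exists, exists_and_right, exists_eq_right]
        exact ⟨fun ⟨h1, h2⟩ => ⟨h1, h2⟩, fun ⟨h1, h2⟩ => ⟨h1, h2⟩⟩
      rw [hcard, Fintype.card_coe] at hip
      have hm : 0 < m := i.pos
      set P' := P.filter (fun b => ¬ g i q b) with hP'
      have hsplit : (P.filter (g i q)).card + P'.card = P.card :=
        Finset.card_filter_add_card_filter_not (g i q)
      have h1 : m * P'.card ≤ (m - 1) * P.card := by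
        obtain ⟨r, hr⟩ : ∃ r, m = r + 1 := ⟨m - 1, by omega⟩
        rw [hr] at hip ⊢
        simp only [Nat.add_sub_cancel]
        have h2 : (r + 1) * P'.card + (r + 1) * (P.filter (g i q)).card = (r + 1) * P.card := by
          rw [← mul_add, ← hsplit]; ring
        have h3 : (r + 1) * P.card = r * P.card + P.card := by ring
        omega
      have h2 : P'.card * (m - 1) ^ t < m ^ t := by
        have h3 : m * (P'.card * (m - 1) ^ t) < m * m ^ t := by
          calc m * (P'.card * (m - 1) ^ t) = (m * P'.card) * (m - 1) ^ t := by ring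
            _ ≤ ((m - 1) * P.card) * (m - 1) ^ t := Nat.mul_le_mul_right _ h1
            _ = P.card * (m - 1) ^ (t + 1) := by rw [pow_succ]; ring
            _ < m ^ (t + 1) := hP
            _ = m * m ^ t := by rw [pow_succ]; ring
        exact Nat.lt_of_mul_lt_mul_left h3
      obtain ⟨L, hL, hLc⟩ := ih P' (fun p hp => hcov p (fun i =>
        (Finset.mem_filter.1 (hp i)).1)) h2
      refine ⟨(i, q) :: L, by simpa using hL, fun b hb => ?_⟩
      by_cases hgb : g i q b
      · exact ⟨(i, q), List.mem_cons_self, hgb⟩
      · obtain ⟨z, hz, hzb⟩ := hLc b (Finset.mem_filter.2 ⟨hb, hgb⟩)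
        exact ⟨z, List.mem_cons_of_mem _ hz, hzb⟩

/-- `2 (m - 1)^m ≤ m^m`. -/
theorem two_mul_pow_le (m : ℕ) (hm : 0 < m) : 2 * (m - 1) ^ m ≤ m ^ m := by
  obtain ⟨r, rfl⟩ : ∃ r, m = r + 1 := ⟨m - 1, by omega⟩
  simp only [Nat.add_sub_cancel]
  have key : ∀ n : ℕ, r ^ n * r + n * r ^ n ≤ r * (r + 1) ^ n := by
    intro n
    induction n with
    | zero => simp
    | succ n ih =>
      calc r ^ (n + 1) * r + (n + 1) * r ^ (n + 1)
          = r * (r ^ n * r + n * r ^ n) + r ^ n * r := by rw [pow_succ]; ring
        _ ≤ r * (r * (r + 1) ^ n) + r * (r + 1) ^ n := by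
            have h1 : r ^ n ≤ (r + 1) ^ n := Nat.pow_le_pow_left (by omega) n
            nlinarith
        _ = r * (r + 1) ^ (n + 1) := by rw [pow_succ]; ring
  rcases Nat.eq_zero_or_pos r with rfl | hr
  · simp
  · have h1 := key (r + 1)
    have h2 : r * (2 * r ^ (r + 1)) ≤ r * (r + 1) ^ (r + 1) := by
      calc r * (2 * r ^ (r + 1)) = r ^ (r + 1) * r + r * r ^ (r + 1) := by ring
        _ ≤ r ^ (r + 1) * r + (r + 1) * r ^ (r + 1) := by nlinarith [Nat.zero_le (r ^ (r + 1))]
        _ ≤ r * (r + 1) ^ (r + 1) := h1
    exact Nat.le_of_mul_le_mul_left h2 hr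

/-- The bound on the number of steps. -/
theorem steps_bound (m r c : ℕ) (hm : 0 < m) (hc : c < 2 ^ r) :
    c * (m - 1) ^ (m * r) < m ^ (m * r) := by
  have h1 : (2 * (m - 1) ^ m) ^ r ≤ (m ^ m) ^ r := Nat.pow_le_pow_left (two_mul_pow_le m hm) r
  rw [mul_pow, ← pow_mul, ← pow_mul] at h1
  rcases Nat.eq_zero_or_pos ((m - 1) ^ (m * r)) with h0 | h0
  · rw [h0, mul_zero]; positivity
  · calc c * (m - 1) ^ (m * r) < 2 ^ r * (m - 1) ^ (m * r) := Nat.mul_lt_mul_of_pos_right hc h0
      _ ≤ m ^ (m * r) := h1

end Pool.Agent.H634R2.Neg
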