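import Pool.Agent.H634R2.Neg.Defs
import Pool.Agent.H634R2.Neg.Cover
import Pool.Agent.H520R2.Raz3

/-!
# De Morgan circuits and monotone programs
-/

namespace Pool.Agent.H634R2.Neg

open Finset
open Pool.Agent.H520R2 (MProg MComp GB adjFn cliqueFn clique_mono_lower)

variable {ι : Type*}

/-- Evaluation with independent values for variables and negated variables. -/
def Wire.eval2 {n : ℕ} (x y : ι → Bool) (v : Fin n → Bool) : Wire ι n → Bool
  | .pos i => x i
  | .neg i => y i
  | .const b => b
  | .gate j => v j

/-- Evaluation with independent values for variables and negated variables. -/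
def Circuit.vals2 : {n : ℕ} → Circuit ι n → (ι → Bool) → (ι → Bool) → Fin n → Bool
  | _, .empty, _, _ => Fin.elim0
  | _, .and C a b, x, y => Fin.snoc (α := fun _ => Bool) (C.vals2 x y)
      (a.eval2 x y (C.vals2 x y) && b.eval2 x y (C.vals2 x y))
  | _, .or C a b, x, y => Fin.snoc (α := fun _ => Bool) (C.vals2 x y)
      (a.eval2 x y (C.vals2 x y) || b.eval2 x y (C.vals2 x y))

theorem eval2_not {n : ℕ} (a : Wire ι n) (x : ι → Bool) (v : Fin n → Bool) :
    a.eval2 x (fun i => !x i) v = a.eval x v := by
  cases a <;> rfl

theorem vals2_not {n : ℕ} (C : Circuit ι n) (x : ι → Bool) :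
    C.vals2 x (fun i => !x i) = C.vals x := by
  induction C with
  | empty => rfl
  | and C a b ih => simp only [Circuit.vals2, Circuit.vals, ih, eval2_not]
  | or C a b ih => simp only [Circuit.vals2, Circuit.vals, ih, eval2_not]

theorem eval2_mono {n : ℕ} (a : Wire ι n) {x x' y y' : ι → Bool} {v v' : Fin n → Bool}
    (hx : ∀ i, x i = true → x' i = true) (hy : ∀ i, y i = true → y' i = true)
    (hv : ∀ j, v j = true → v' j = true) (h : a.eval2 x y v = true) : a.eval2 x' y' v' = true := by
  cases a with
  | pos i => exact hx i h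
  | neg i => exact hy i h
  | const b => exact h
  | gate j => exact hv j h

theorem vals2_mono {n : ℕ} (C : Circuit ι n) {x x' y y' : ι → Bool}
    (hx : ∀ i, x i = true → x' i = true) (hy : ∀ i, y i = true → y' i = true) :
    ∀ j, C.vals2 x y j = true → C.vals2 x' y' j = true := by
  induction C with
  | empty => intro j; exact j.elim0
  | @and n C a b ih =>
    intro j
    refine Fin.lastCases ?_ (fun j => ?_) j
    · simp only [Circuit.vals2, Fin.snoc_last, Bool.and_eq_true]
      rintro ⟨h1, h2⟩
      exact ⟨eval2_mono a hx hy ih h1, eval2_mono b hx hy ih h2⟩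
    · simp only [Circuit.vals2, Fin.snoc_castSucc]
      exact ih j
  | @or n C a b ih =>
    intro j
    refine Fin.lastCases ?_ (fun j => ?_) j
    · simp only [Circuit.vals2, Fin.snoc_last, Bool.or_eq_true]
      rintro (h1 | h2)
      · exact Or.inl (eval2_mono a hx hy ih h1)
      · exact Or.inr (eval2_mono b hx hy ih h2)
    · simp only [Circuit.vals2, Fin.snoc_castSucc]
      exact ih j

theorem wire_terms {n : ℕ} {x y : ι → Bool} {T : Fin n → Set (Term ι)} {v : Fin n → Bool}
    (hT : ∀ j, ∀ t ∈ T j, (∀ i ∈ t.pos, x i = true) → (∀ i ∈ t.neg, y i = true) → v j = true)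
    (a : Wire ι n) : ∀ t ∈ a.terms T, (∀ i ∈ t.pos, x i = true) →
      (∀ i ∈ t.neg, y i = true) → a.eval2 x y v = true := by
  intro t ht hp hn
  cases a with
  | pos i =>
    simp only [Wire.terms, Set.mem_singleton_iff] at ht
    subst ht
    exact hp i (by simp)
  | neg i =>
    simp only [Wire.terms, Set.mem_singleton_iff] at ht
    subst ht
    exact hn i (by simp)
  | const b =>
    cases b
    · simp [Wire.terms] at ht
    · rfl
  | gate j => exact hT j t ht hp hn

theorem circuit_terms [DecidableEq ι] {n : ℕ} (C : Circuit ι n) {x y : ι → Bool} :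
    ∀ j, ∀ t ∈ C.terms j, (∀ i ∈ t.pos, x i = true) → (∀ i ∈ t.neg, y i = true) →
      C.vals2 x y j = true := by
  induction C with
  | empty => intro j; exact j.elim0
  | @and n C a b ih =>
    intro j
    refine Fin.lastCases ?_ (fun j => ?_) j
    · simp only [Circuit.vals2, Circuit.terms, Fin.snoc_last, Bool.and_eq_true, Set.mem_ofPred_eq]
      rintro t ⟨p, hp, q, hq, rfl⟩ h1 h2
      exact ⟨wire_terms ih a p hp (fun i hi => h1 i (Finset.mem_union_left _ hi))
          (fun i hi => h2 i (Finset.mem_union_left _ hi)),
        wire_terms ih b q hq (fun i hi => h1 i (Finset.mem_union_right _ hi))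
          (fun i hi => h2 i (Finset.mem_union_right _ hi))⟩
    · simp only [Circuit.vals2, Circuit.terms, Fin.snoc_castSucc]
      exact ih j
  | @or n C a b ih =>
    intro j
    refine Fin.lastCases ?_ (fun j => ?_) j
    · simp only [Circuit.vals2, Circuit.terms, Fin.snoc_last, Bool.or_eq_true, Set.mem_union]
      rintro t (ht | ht) h1 h2
      · exact Or.inl (wire_terms ih a t ht h1 h2)
      · exact Or.inr (wire_terms ih b t ht h1 h2)
    · simp only [Circuit.vals2, Circuit.terms, Fin.snoc_castSucc]
      exact ih j

/-- Circuits give monotone programs when variables and negated variables are replaced by base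
functions. -/
theorem prog {X : Type*} {B : Set (X → Bool)} (hB : ∀ b : Bool, (fun _ => b) ∈ B)
    (x y : X → ι → Bool) (hx : ∀ i, (fun z => x z i) ∈ B) (hy : ∀ i, (fun z => y z i) ∈ B)
    {n : ℕ} (C : Circuit ι n) :
    ∃ L : List (X → Bool), MProg B L ∧ L.length = n ∧
      ∀ a : Wire ι n, (fun z => a.eval2 (x z) (y z) (C.vals2 (x z) (y z))) ∈ B ∨
        (fun z => a.eval2 (x z) (y z) (C.vals2 (x z) (y z))) ∈ L := by
  induction C with
  | empty =>
    refine ⟨[], MProg.nil, rfl, fun a => Or.inl ?_⟩
    cases a with
    | pos i => exact hx i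
    | neg i => exact hy i
    | const b => exact hB b
    | gate j => exact j.elim0
  | @and n C a b ih =>
    obtain ⟨L, hL, hlen, hw⟩ := ih
    refine ⟨_, MProg.and hL (hw a) (hw b), by simp [hlen], fun c => ?_⟩
    cases c with
    | pos i => exact Or.inl (hx i)
    | neg i => exact Or.inl (hy i)
    | const b => exact Or.inl (hB b)
    | gate j =>
      refine Fin.lastCases ?_ (fun j => ?_) j
      · right
        simp only [Wire.eval2, Circuit.vals2, Fin.snoc_last]
        exact List.mem_cons_self
      · simp only [Wire.eval2, Circuit.vals2, Fin.snoc_castSucc]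
        rcases hw (.gate j) with h | h
        · exact Or.inl h
        · exact Or.inr (List.mem_cons_of_mem _ h)
  | @or n C a b ih =>
    obtain ⟨L, hL, hlen, hw⟩ := ih
    refine ⟨_, MProg.or hL (hw a) (hw b), by simp [hlen], fun c => ?_⟩
    cases c with
    | pos i => exact Or.inl (hx i)
    | neg i => exact Or.inl (hy i)
    | const b => exact Or.inl (hB b)
    | gate j =>
      refine Fin.lastCases ?_ (fun j => ?_) j
      · right
        simp only [Wire.eval2, Circuit.vals2, Fin.snoc_last]
        exact List.mem_cons_self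
      · simp only [Wire.eval2, Circuit.vals2, Fin.snoc_castSucc]
        rcases hw (.gate j) with h | h
        · exact Or.inl h
        · exact Or.inr (List.mem_cons_of_mem _ h)

/-- The disjunction of a list of functions. -/
theorem any_comp {X Z : Type*} {B : Set (X → Bool)} (hB : (fun _ => false) ∈ B) {s : ℕ}
    (h : Z → X → Bool) (L : List Z) (hL : ∀ z ∈ L, MComp B s (h z)) :
    MComp B (L.length * (s + 1)) (fun x => L.any (fun z => h z x)) := by
  induction L with
  | nil => exact ⟨[], MProg.nil, by simp, Or.inl (by simpa using hB)⟩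
  | cons z L ih =>
    obtain ⟨P, hP, hPl, hPm⟩ := ih (fun w hw => hL w (List.mem_cons_of_mem _ hw))
    obtain ⟨Q, hQ, hQl, hQm⟩ := hL z List.mem_cons_self
    have h1 := hP.append hQ
    have h2 := MProg.or h1 (f := h z) (g := fun x => L.any (fun z => h z x))
      (hQm.imp_right (List.mem_append_left _)) (hPm.imp_right (List.mem_append_right _))
    refine ⟨_, h2, ?_, Or.inr ?_⟩
    · simp only [List.length_cons, List.length_append]
      nlinarith
    · simp only [List.any_cons]
      exact List.mem_cons_self

end Pool.Agent.H634R2.Neg
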