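import Mathlib

/-!
# De Morgan circuits and the terms they produce: definitions
-/

namespace Pool.Agent.H634R2.Neg

/-- A wire that can be fed into a gate: a variable, a negated variable, a Boolean constant, or the
output of one of the `n` gates built so far. -/
inductive Wire (ι : Type*) (n : ℕ) : Type _
  | pos (i : ι) : Wire ι n
  | neg (i : ι) : Wire ι n
  | const (b : Bool) : Wire ι n
  | gate (j : Fin n) : Wire ι n

/-- De Morgan circuits with `n` gates over the variables `ι`: gates are AND and OR gates of fan-in
two, negations are applied to variables only. -/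
inductive Circuit (ι : Type*) : ℕ → Type _
  | empty : Circuit ι 0
  | and {n : ℕ} (C : Circuit ι n) (a b : Wire ι n) : Circuit ι (n + 1)
  | or {n : ℕ} (C : Circuit ι n) (a b : Wire ι n) : Circuit ι (n + 1)

/-- The value of a wire, given the input `x` and the values `v` of the gates. -/
def Wire.eval {ι : Type*} {n : ℕ} (x : ι → Bool) (v : Fin n → Bool) : Wire ι n → Bool
  | .pos i => x i
  | .neg i => !x i
  | .const b => b
  | .gate j => v j

/-- The values of all gates of the circuit on input `x`. -/
def Circuit.vals {ι : Type*} : {n : ℕ} → Circuit ι n → (ι → Bool) → Fin n → Bool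
  | _, .empty, _ => Fin.elim0
  | _, .and C a b, x => Fin.snoc (α := fun _ => Bool) (C.vals x)
      (a.eval x (C.vals x) && b.eval x (C.vals x))
  | _, .or C a b, x => Fin.snoc (α := fun _ => Bool) (C.vals x)
      (a.eval x (C.vals x) || b.eval x (C.vals x))

/-- A term (conjunction of literals): the set of its variables that are not negated and the set of
its negated variables. -/
structure Term (ι : Type*) where
  pos : Finset ι
  neg : Finset ι

/-- The term is satisfied by the input `x`. -/
def Term.Sat {ι : Type*} (t : Term ι) (x : ι → Bool) : Prop :=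
  (∀ i ∈ t.pos, x i = true) ∧ ∀ i ∈ t.neg, x i = false

/-- The terms produced at a wire, given the sets `T` of terms produced at the gates. -/
def Wire.terms {ι : Type*} {n : ℕ} (T : Fin n → Set (Term ι)) : Wire ι n → Set (Term ι)
  | .pos i => {⟨{i}, ∅⟩}
  | .neg i => {⟨∅, {i}⟩}
  | .const true => {⟨∅, ∅⟩}
  | .const false => ∅
  | .gate j => T j

/-- The terms produced (purely syntactically) at the gates of a De Morgan circuit: at an OR gate
the terms produced at one of the two incoming wires, at an AND gate all conjunctions of a term
produced at one and a term produced at the other incoming wire. -/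
def Circuit.terms {ι : Type*} [DecidableEq ι] : {n : ℕ} → Circuit ι n → Fin n → Set (Term ι)
  | _, .empty => Fin.elim0
  | _, .and C a b => Fin.snoc (α := fun _ => Set (Term ι)) C.terms
      {t | ∃ p ∈ a.terms C.terms, ∃ q ∈ b.terms C.terms, t = ⟨p.pos ∪ q.pos, p.neg ∪ q.neg⟩}
  | _, .or C a b => Fin.snoc (α := fun _ => Set (Term ι)) C.terms
      (a.terms C.terms ∪ b.terms C.terms)

end Pool.Agent.H634R2.Neg
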