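import Pool.Agent.H634R2.Neg.LangDefs
import Pool.Agent.H611R2.ListClique

/-!
# The language is `NP`-complete
-/

namespace Pool.Agent.H634R2.Neg

open Pool.Agent.NPC
open Pool.Agent.H611R2 (inNP_of_poly)

/-- The verifier. -/
def chk (v k : ℕ) (y w : List Bool) : Bool :=
  (List.range (y.length / (v * v))).all (fun j =>
    decide (((List.range v).filter (fun a => w.getD (j * v + a) false)).length = k) &&
    (List.range v).all (fun a => (List.range v).all (fun b =>
      !(decide (a < b) && (w.getD (j * v + a) false && w.getD (j * v + b) false)) ||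
        y.getD (j * (v * v) + a * v + b) false)))

theorem chk_poly {α : Type} [TEnc α] {v k : α → ℕ} {y w : α → List Bool} (hv : UPoly v)
    (hk : NPC.Poly k) (hy : NPC.Poly y) (hw : NPC.Poly w) :
    NPC.Poly (fun a => chk (v a) (k a) (y a) (w a)) := by
  have hv' : NPC.Poly v := hv.toPoly
  have hm : NPC.Poly (fun a => (y a).length / (v a * v a)) :=
    Poly.div (Poly.length hy) (Poly.mul hv' hv')
  have M : UPoly (fun a => (y a).length / (v a * v a)) :=
    UPoly.of_le hm (UPoly.length hy) (fun p => Nat.div_le_self _ _)
  -- one block, `q = (a, j)`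
  have h1 : NPC.Poly (fun q : α × ℕ => decide (((List.range (v q.1)).filter
      (fun a => (w q.1).getD (q.2 * v q.1 + a) false)).length = k q.1)) := by
    refine Poly.decide_eq (Poly.length (Poly.filter
      (p := fun (q : α × ℕ) a => (w q.1).getD (q.2 * v q.1 + a) false)
      (hv.range.comp (Poly.fst Poly.id)) ?_)) (hk.comp (Poly.fst Poly.id))
    exact Poly.getD (d := fun _ => false) (hw.comp (Poly.fst (Poly.fst Poly.id)))
      (Poly.add (Poly.mul (Poly.snd (Poly.fst Poly.id)) (hv'.comp (Poly.fst (Poly.fst Poly.id))))
        (Poly.snd Poly.id)) (NPC.Poly.const false)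
  -- contexts: q = ((a, j), a), b
  have A1 : NPC.Poly (fun r : ((α × ℕ) × ℕ) × ℕ => r.1.1.1) :=
    Poly.fst (Poly.fst (Poly.fst Poly.id))
  have A2 : NPC.Poly (fun r : ((α × ℕ) × ℕ) × ℕ => r.1.1.2) :=
    Poly.snd (Poly.fst (Poly.fst Poly.id))
  have A3 : NPC.Poly (fun r : ((α × ℕ) × ℕ) × ℕ => r.1.2) := Poly.snd (Poly.fst Poly.id)
  have A4 : NPC.Poly (fun r : ((α × ℕ) × ℕ) × ℕ => r.2) := Poly.snd Poly.id
  have V3 : NPC.Poly (fun r : ((α × ℕ) × ℕ) × ℕ => v r.1.1.1) := hv'.comp A1
  have h2 : NPC.Poly (fun r : ((α × ℕ) × ℕ) × ℕ =>
      !(decide (r.1.2 < r.2) && ((w r.1.1.1).getD (r.1.1.2 * v r.1.1.1 + r.1.2) false &&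
        (w r.1.1.1).getD (r.1.1.2 * v r.1.1.1 + r.2) false)) ||
        (y r.1.1.1).getD (r.1.1.2 * (v r.1.1.1 * v r.1.1.1) + r.1.2 * v r.1.1.1 + r.2)
          false) := by
    refine Poly.or (Poly.not (Poly.and (Poly.decide_lt A3 A4) (Poly.and ?_ ?_))) ?_
    · exact Poly.getD (d := fun _ => false) (hw.comp A1) (Poly.add (Poly.mul A2 V3) A3)
        (NPC.Poly.const false)
    · exact Poly.getD (d := fun _ => false) (hw.comp A1) (Poly.add (Poly.mul A2 V3) A4)
        (NPC.Poly.const false)
    · exact Poly.getD (d := fun _ => false) (hy.comp A1)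
        (Poly.add (Poly.add (Poly.mul A2 (Poly.mul V3 V3)) (Poly.mul A3 V3)) A4)
        (NPC.Poly.const false)
  have h3 : NPC.Poly (fun r : (α × ℕ) × ℕ =>
      (List.range (v r.1.1)).all (fun b =>
      !(decide (r.2 < b) && ((w r.1.1).getD (r.1.2 * v r.1.1 + r.2) false &&
        (w r.1.1).getD (r.1.2 * v r.1.1 + b) false)) ||
        (y r.1.1).getD (r.1.2 * (v r.1.1 * v r.1.1) + r.2 * v r.1.1 + b) false)) :=
    Poly.all (l := fun r : (α × ℕ) × ℕ => List.range (v r.1.1))
      (p := fun r b => !(decide (r.2 < b) && ((w r.1.1).getD (r.1.2 * v r.1.1 + r.2) false &&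
        (w r.1.1).getD (r.1.2 * v r.1.1 + b) false)) ||
        (y r.1.1).getD (r.1.2 * (v r.1.1 * v r.1.1) + r.2 * v r.1.1 + b) false)
      (hv.range.comp (Poly.fst (Poly.fst Poly.id))) h2
  have h4 : NPC.Poly (fun r : α × ℕ =>
      (List.range (v r.1)).all (fun a => (List.range (v r.1)).all (fun b =>
      !(decide (a < b) && ((w r.1).getD (r.2 * v r.1 + a) false &&
        (w r.1).getD (r.2 * v r.1 + b) false)) ||
        (y r.1).getD (r.2 * (v r.1 * v r.1) + a * v r.1 + b) false))) :=
    Poly.all (l := fun r : α × ℕ => List.range (v r.1))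
      (p := fun r a => (List.range (v r.1)).all (fun b =>
      !(decide (a < b) && ((w r.1).getD (r.2 * v r.1 + a) false &&
        (w r.1).getD (r.2 * v r.1 + b) false)) ||
        (y r.1).getD (r.2 * (v r.1 * v r.1) + a * v r.1 + b) false))
      (hv.range.comp (Poly.fst Poly.id)) h3
  exact Poly.all (l := fun a => List.range ((y a).length / (v a * v a)))
    (p := fun c j => decide (((List.range (v c)).filter
      (fun a => (w c).getD (j * v c + a) false)).length = k c) &&
    (List.range (v c)).all (fun a => (List.range (v c)).all (fun b =>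
      !(decide (a < b) && ((w c).getD (j * v c + a) false && (w c).getD (j * v c + b) false)) ||
        (y c).getD (j * (v c * v c) + a * v c + b) false)))
    M.range (Poly.and h1 h4)

theorem allCliques_of_chk {v k : ℕ} {y w : List Bool} (hw : chk v k y w = true) :
    AllCliques v k y := by
  unfold chk at hw
  simp only [Bool.and_eq_true, decide_eq_true_eq, List.mem_range, List.all_eq_true] at hw
  intro j hj
  obtain ⟨h1, h2⟩ := hw j hj
  refine ⟨((List.range v).filter (fun a => w.getD (j * v + a) false)).toFinset, ?_, ?_, ?_⟩
  · rw [List.toFinset_card_of_nodup (List.nodup_range.filter _)]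
    exact h1
  · intro a ha
    simp only [List.mem_toFinset, List.mem_filter, List.mem_range] at ha
    exact ha.1
  · intro a ha b hb hab
    simp only [List.mem_toFinset, List.mem_filter, List.mem_range] at ha hb
    have := h2 a ha.1 b hb.1
    rw [ha.2, hb.2, decide_eq_true hab] at this
    change y.getD _ _ = true
    simpa using this

theorem allCliques_iff (v k : ℕ) (y : List Bool) :
    AllCliques v k y ↔ ∃ w : List Bool, w.length ≤ y.length ∧ chk v k y w = true := by
  constructor
  · intro hx
    set m := y.length / (v * v) with hm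
    have hx' : ∀ j < m, ∃ S : Finset ℕ, S.card = k ∧ (∀ a ∈ S, a < v) ∧
      ∀ a ∈ S, ∀ b ∈ S, a < b → entry v y j a b = true := hx
    choose! S hS hSv hcl using hx'
    refine ⟨(List.range (m * v)).map (fun i => decide (i % v ∈ S (i / v))), ?_, ?_⟩
    · simp only [List.length_map, List.length_range]
      have h1 : m * (v * v) ≤ y.length := Nat.div_mul_le_self _ _
      rcases Nat.eq_zero_or_pos v with h0 | h0
      · rw [h0]; simp
      · nlinarith
    · have hget : ∀ j < m, ∀ a, a < v → ((List.range (m * v)).map
          (fun i => decide (i % v ∈ S (i / v)))).getD (j * v + a) false = decide (a ∈ S j) := by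
        intro j hj a ha
        have hlt : j * v + a < m * v := by
          calc j * v + a < j * v + v := by omega
            _ = (j + 1) * v := by ring
            _ ≤ m * v := Nat.mul_le_mul_right _ hj
        have h1 : (j * v + a) % v = a := by
          rw [add_comm, Nat.add_mul_mod_self_right, Nat.mod_eq_of_lt ha]
        have h2 : (j * v + a) / v = j := by
          rw [add_comm, Nat.add_mul_div_right _ _ (by omega), Nat.div_eq_of_lt ha, zero_add]
        rw [List.getD_eq_getElem _ _ (by simpa using hlt)]
        simp [h1, h2]
      unfold chk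
      simp only [← hm]
      rw [List.all_eq_true]
      intro j hj
      rw [List.mem_range] at hj
      rw [Bool.and_eq_true]
      constructor
      · rw [decide_eq_true_eq, ← hS j hj]
        have h0 : (List.range v).filter (fun a => ((List.range (m * v)).map
            (fun i => decide (i % v ∈ S (i / v)))).getD (j * v + a) false) =
            (List.range v).filter (fun a => decide (a ∈ S j)) := by
          apply List.filter_congr
          intro a ha
          exact hget j hj a (List.mem_range.1 ha)
        rw [h0]
        have h1 : ((List.range v).filter (fun a => decide (a ∈ S j))).toFinset = S j := by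
          ext a
          simp only [List.mem_toFinset, List.mem_filter, List.mem_range, decide_eq_true_eq]
          exact ⟨fun h => h.2, fun h => ⟨hSv j hj a h, h⟩⟩
        have h2 : ((List.range v).filter (fun a => decide (a ∈ S j))).Nodup :=
          List.nodup_range.filter _
        rw [← List.toFinset_card_of_nodup h2, h1]
      · rw [List.all_eq_true]
        intro a ha
        rw [List.all_eq_true]
        intro b hb
        rw [List.mem_range] at ha hb
        rw [hget j hj a ha, hget j hj b hb]
        by_cases hab : a < b ∧ a ∈ S j ∧ b ∈ S j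
        · have := hcl j hj a hab.2.1 b hab.2.2 hab.1
          unfold entry at this
          rw [this]
          simp
        · have : (decide (a < b) && (decide (a ∈ S j) && decide (b ∈ S j))) = false := by
            rw [← Bool.not_eq_true]
            simpa using fun h1 h2 h3 => hab ⟨h1, h2, h3⟩
          rw [this]
          simp
  · rintro ⟨w, _, hw⟩
    exact allCliques_of_chk hw

/-- The language is in `NP`. -/
theorem inNP_L : InNP L := by
  refine inNP_of_poly (fun p => chk (H611R2.LC.ones p.1) (H611R2.LC.ones (H611R2.LC.after p.1))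
    (H611R2.LC.after (H611R2.LC.after p.1)) p.2) ?_ Polynomial.X fun x => ?_
  · have X : NPC.Poly (fun p : List Bool × List Bool => p.1) := Poly.fst Poly.id
    have W : NPC.Poly (fun p : List Bool × List Bool => p.2) := Poly.snd Poly.id
    exact chk_poly (H611R2.LC.ones_upoly X) (H611R2.LC.ones_upoly (H611R2.LC.after_poly X)).toPoly
      (H611R2.LC.after_poly (H611R2.LC.after_poly X)) W
  · change AllCliques _ _ _ ↔ _
    simp only [Polynomial.eval_X]
    constructor
    · intro h
      obtain ⟨w, h1, h2⟩ := (allCliques_iff _ _ _).1 h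
      exact ⟨w, h1.trans ((H611R2.LC.after_length_le _).trans (H611R2.LC.after_length_le _)), h2⟩
    · rintro ⟨w, _, h2⟩
      exact allCliques_of_chk h2

/-- Membership for a string with the header `1^v 0 1^k 0`. -/
theorem mem_L_hdr (v k : ℕ) (y : List Bool) :
    List.replicate v true ++ false :: (List.replicate k true ++ false :: y) ∈ L ↔
      AllCliques v k y := by
  change AllCliques (H611R2.LC.ones _) (H611R2.LC.ones (H611R2.LC.after _))
    (H611R2.LC.after (H611R2.LC.after _)) ↔ _
  rw [H611R2.LC.ones_hdr, H611R2.LC.after_hdr, H611R2.LC.ones_hdr, H611R2.LC.after_hdr]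

/-! ### Hardness -/

open H611R2.LC (occ mat mat_length)

/-- The reduction from satisfiability. -/
def redA (φ : List (List (Bool × ℕ))) : List Bool :=
  bif (occ φ).isEmpty && !φ.isEmpty then [true, false, true, true, false, false]
  else H611R2.LC.red φ

theorem redA_poly : NPC.Poly redA := by
  have hid : NPC.Poly (fun φ : List (List (Bool × ℕ)) => φ) := Poly.id
  have hocc : NPC.Poly occ := by
    refine Poly.flatMap (F := fun _ p => p.1.map (fun l => (p.2, l))) (Poly.zipIdx hid) ?_
    exact NPC.Poly.map (F := fun (r : List (List (Bool × ℕ)) × List (Bool × ℕ) × ℕ) (l : Bool × ℕ) =>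
      (r.2.2, l)) (Poly.fst (Poly.snd Poly.id))
      (Poly.pair (Poly.snd (Poly.snd (Poly.fst Poly.id))) (Poly.snd Poly.id))
  exact Poly.cond (Poly.and (Poly.isEmpty hocc) (Poly.not (Poly.isEmpty hid)))
    (NPC.Poly.const _) H611R2.LC.red_poly

/-- With exactly one block, all blocks contain a clique iff one does. -/
theorem one_block {v k : ℕ} {y : List Bool} (h : y.length / (v * v) = 1) :
    H611R2.LC.HasClique v k y ↔ AllCliques v k y := by
  constructor
  · rintro ⟨j, hj, hS⟩ i hi
    rw [h] at hj hi
    have : i = j := by omega
    subst this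
    exact hS
  · intro hall
    exact ⟨0, by omega, hall 0 (by omega)⟩

theorem redA_correct (φ : List (List (Bool × ℕ))) : SAT φ ↔ redA φ ∈ L := by
  unfold redA
  by_cases h1 : occ φ = []
  · by_cases h2 : φ = []
    · subst h2
      have h3 : H611R2.LC.red [] = List.replicate 1 true ++ false :: (List.replicate 0 true ++
        false :: [false]) := rfl
      have h4 := H611R2.LC.red_correct []
      rw [h3, H611R2.LC.mem_listClique_hdr, one_block (by rfl)] at h4
      have h5 : (bif (occ ([] : List (List (Bool × ℕ)))).isEmpty &&
          !([] : List (List (Bool × ℕ))).isEmpty then [true, false, true, true, false, false]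
          else H611R2.LC.red []) = List.replicate 1 true ++ false :: (List.replicate 0 true ++
        false :: [false]) := rfl
      rw [h4, h5, mem_L_hdr]
    · have h3 : (bif (occ φ).isEmpty && !φ.isEmpty then [true, false, true, true, false, false]
          else H611R2.LC.red φ) = List.replicate 1 true ++ false :: (List.replicate 2 true ++
        false :: [false]) := by
        have e1 : (occ φ).isEmpty = true := by rw [h1]; rfl
        have e2 : φ.isEmpty = false := by cases φ <;> simp_all
        rw [e1, e2]
        rfl
      rw [h3, mem_L_hdr]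
      constructor
      · rintro ⟨τ, hτ⟩
        exfalso
        obtain ⟨c, hc⟩ := List.exists_mem_of_ne_nil φ h2
        obtain ⟨l, hl, _⟩ := hτ c hc
        obtain ⟨i, hi, hic⟩ := List.mem_iff_getElem.1 hc
        have : (i, l) ∈ occ φ := H611R2.LC.mem_occ.2 ⟨c, by
          rw [List.getElem?_eq_getElem hi, hic], hl⟩
        rw [h1] at this
        simp at this
      · intro h
        exfalso
        obtain ⟨S, hS, hSv, _⟩ := h 0 (by simp)
        have : S ⊆ Finset.range 1 := fun a ha => Finset.mem_range.2 (hSv a ha)
        have := Finset.card_le_card this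
        rw [hS, Finset.card_range] at this
        omega
  · have e1 : (occ φ).isEmpty = false := by
      cases h : occ φ with
      | nil => exact absurd h h1
      | cons _ _ => rfl
    have h2 : φ ≠ [] := by
      rintro rfl
      exact h1 rfl
    have e2 : φ.isEmpty = false := by cases φ <;> simp_all
    rw [e1]
    simp only [Bool.false_and, cond_false]
    rw [H611R2.LC.red_correct φ]
    have hred : H611R2.LC.red φ = List.replicate (occ φ).length true ++ false ::
        (List.replicate φ.length true ++ false :: mat φ) := by
      unfold H611R2.LC.red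
      rw [e2, cond_false, List.map_const', List.map_const']
    rw [hred, H611R2.LC.mem_listClique_hdr, mem_L_hdr]
    apply one_block
    rw [mat_length]
    have hpos : 0 < (occ φ).length := List.length_pos_iff.2 h1
    exact Nat.div_self (Nat.mul_pos hpos hpos)

/-- The language is `NP`-hard. -/
theorem npHard_L : NPHard L := by
  intro A hA
  obtain ⟨f, hf, hfL⟩ := hardI_SAT A hA
  exact ⟨fun x => redA (f x), H611R2.polyTime_raw hf redA_poly,
    fun x => (hfL x).trans (redA_correct _)⟩

end Pool.Agent.H634R2.Neg
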