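import Pool.Agent.H634R2.Neg.Main
import Pool.Agent.H634R2.Neg.InNP

/-!
# The lower bound for the language
-/

namespace Pool.Agent.H634R2.Neg

section

variable {v m M : ℕ} {h : ℕ}

theorem pos_lt (hM : h + m * (v * v) ≤ M) (i : Fin m) (a b : Fin v) :
    h + (i.1 * (v * v) + a.1 * v + b.1) < M := by
  have h1 : a.1 * v + b.1 < v * v := by
    have h2 : a.1 * v + b.1 < (a.1 + 1) * v := by
      have := b.2
      calc a.1 * v + b.1 < a.1 * v + v := by omega
        _ = (a.1 + 1) * v := by ring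
    exact lt_of_lt_of_le h2 (Nat.mul_le_mul_right _ a.2)
  have h3 : (i.1 + 1) * (v * v) ≤ m * (v * v) := Nat.mul_le_mul_right _ i.2
  have h4 : (i.1 + 1) * (v * v) = i.1 * (v * v) + v * v := by ring
  omega

/-- The position of the bit for the edge `e` in block `i`. -/
def posF (hM : h + m * (v * v) ≤ M) (i : Fin m) (e : Sym2 (Fin v)) : Fin M :=
  ⟨h + (i.1 * (v * v) + e.inf.1 * v + e.sup.1), pos_lt hM i e.inf e.sup⟩

theorem posF_mk (hM : h + m * (v * v) ≤ M) (i : Fin m) {a b : Fin v} (hab : a < b) :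
    (posF hM i s(a, b)).1 = h + (i.1 * (v * v) + a.1 * v + b.1) := by
  simp only [posF, Sym2.inf_mk, Sym2.sup_mk, inf_eq_left.2 hab.le, sup_eq_right.2 hab.le]

theorem decode {v i a b i' a' b' : ℕ} (ha : a < v) (hb : b < v) (ha' : a' < v) (hb' : b' < v)
    (h : i * (v * v) + a * v + b = i' * (v * v) + a' * v + b') : i = i' ∧ a = a' ∧ b = b' := by
  have hv : 0 < v := by omega
  have e1 : i * (v * v) + a * v + b = b + v * (i * v + a) := by ring
  have e2 : i' * (v * v) + a' * v + b' = b' + v * (i' * v + a') := by ring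
  rw [e1, e2] at h
  have h1 : b = b' := by
    have := congrArg (· % v) h
    simpa [Nat.add_mul_mod_self_left, Nat.mod_eq_of_lt hb, Nat.mod_eq_of_lt hb'] using this
  have h2 : i * v + a = i' * v + a' := by
    have := congrArg (· / v) h
    simpa [Nat.add_mul_div_left _ _ hv, Nat.div_eq_of_lt hb, Nat.div_eq_of_lt hb'] using this
  have e3 : i * v + a = a + v * i := by ring
  have e4 : i' * v + a' = a' + v * i' := by ring
  rw [e3, e4] at h2
  refine ⟨?_, ?_, h1⟩
  · have := congrArg (· / v) h2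
    simpa [Nat.add_mul_div_left _ _ hv, Nat.div_eq_of_lt ha, Nat.div_eq_of_lt ha'] using this
  · have := congrArg (· % v) h2
    simpa [Nat.add_mul_mod_self_left, Nat.mod_eq_of_lt ha, Nat.mod_eq_of_lt ha'] using this

theorem posF_inj (hM : h + m * (v * v) ≤ M) : Inj (posF (v := v) hM) := by
  intro i i' e e' _ _ heq
  have h1 := congrArg Fin.val heq
  simp only [posF] at h1
  obtain ⟨h2, h3, h4⟩ := decode e.inf.2 e.sup.2 e'.inf.2 e'.sup.2 (Nat.add_left_cancel h1)
  refine ⟨Fin.ext h2, ?_⟩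
  have h3' : e.inf = e'.inf := Fin.ext h3
  have h4' : e.sup = e'.sup := Fin.ext h4
  induction e using Sym2.ind with
  | _ a b =>
    induction e' using Sym2.ind with
    | _ a' b' =>
      simp only [Sym2.inf_mk, Sym2.sup_mk] at h3' h4'
      rw [Sym2.eq_iff]
      rcases le_total a b with hab | hab <;> rcases le_total a' b' with hab' | hab'
      · simp only [inf_eq_left.2 hab, sup_eq_right.2 hab, inf_eq_left.2 hab',
          sup_eq_right.2 hab'] at h3' h4'
        exact Or.inl ⟨h3', h4'⟩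
      · simp only [inf_eq_left.2 hab, sup_eq_right.2 hab, inf_eq_right.2 hab',
          sup_eq_left.2 hab'] at h3' h4'
        exact Or.inr ⟨h3', h4'⟩
      · simp only [inf_eq_right.2 hab, sup_eq_left.2 hab, inf_eq_left.2 hab',
          sup_eq_right.2 hab'] at h3' h4'
        exact Or.inr ⟨h4', h3'⟩
      · simp only [inf_eq_right.2 hab, sup_eq_left.2 hab, inf_eq_right.2 hab',
          sup_eq_left.2 hab'] at h3' h4'
        exact Or.inl ⟨h4', h3'⟩

/-- In a block, having a clique of the right size in terms of the entries. -/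
theorem block_iff (G : SimpleGraph (Fin v)) (y : List Bool) (i k : ℕ)
    (hy : ∀ a b : Fin v, a < b → (entry v y i a.1 b.1 = true ↔ G.Adj a b)) :
    (∃ S : Finset ℕ, S.card = k ∧ (∀ a ∈ S, a < v) ∧
      ∀ a ∈ S, ∀ b ∈ S, a < b → entry v y i a b = true) ↔ ¬ G.CliqueFree k := by
  constructor
  · rintro ⟨S, hS, hv, hcl⟩ hfree
    set S' : Finset (Fin v) := Finset.univ.filter (fun a => a.1 ∈ S) with hS'
    apply hfree S'
    rw [SimpleGraph.isNClique_iff]
    constructor
    · have key : ∀ a b : Fin v, a.1 ∈ S → b.1 ∈ S → a < b → G.Adj a b := by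
        intro a b ha hb hab
        exact (hy a b hab).1 (hcl a.1 ha b.1 hb hab)
      intro a ha b hb hne
      simp only [hS', Finset.coe_filter, Finset.mem_univ, true_and, Set.mem_ofPred_eq] at ha hb
      rcases lt_or_gt_of_ne hne with hlt | hlt
      · exact key a b ha hb hlt
      · exact (key b a hb ha hlt).symm
    · rw [← hS]
      have : S'.map Fin.valEmbedding = S := by
        ext a
        simp only [hS', Finset.mem_map, Finset.mem_filter, Finset.mem_univ, true_and,
          Fin.valEmbedding_apply]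
        constructor
        · rintro ⟨b, hb, rfl⟩; exact hb
        · intro ha; exact ⟨⟨a, hv a ha⟩, ha, rfl⟩
      rw [← this, Finset.card_map]
  · intro hfree
    rw [SimpleGraph.CliqueFree] at hfree
    push Not at hfree
    obtain ⟨S', hS'⟩ := hfree
    refine ⟨S'.map Fin.valEmbedding, by rw [Finset.card_map]; exact hS'.card_eq, ?_, ?_⟩
    · intro a ha
      simp only [Finset.mem_map, Fin.valEmbedding_apply] at ha
      obtain ⟨b, _, rfl⟩ := ha
      exact b.2
    · intro a ha b hb hab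
      simp only [Finset.mem_map, Fin.valEmbedding_apply] at ha hb
      obtain ⟨a, ha, rfl⟩ := ha
      obtain ⟨b, hb, rfl⟩ := hb
      have hab' : a < b := hab
      exact (hy a b hab').2 (hS'.isClique ha hb hab'.ne)

end

/-- The header `1^v 0 1^k 0`. -/
def hdr (v k : ℕ) : List Bool := List.replicate v true ++ false :: (List.replicate k true ++ [false])

theorem hdr_length (v k : ℕ) : (hdr v k).length = v + k + 2 := by
  simp [hdr]; omega

theorem hdr_append (v k : ℕ) (y : List Bool) :
    hdr v k ++ y = List.replicate v true ++ false :: (List.replicate k true ++ false :: y) := by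
  simp [hdr]

/-- The circuit decides the blocks when the header is fixed. -/
theorem decides_blocks {M n v k N m : ℕ} (hM : M = v + k + 2 + N) (hm : m = N / (v * v))
    (hle : v + k + 2 + m * (v * v) ≤ M) (C : Circuit (Fin M) n)
    (out : Wire (Fin M) n) (hC : DecidesLang C out L) :
    Decides C out (posF (v := v) hle) (fun j => (hdr v k).getD j.1 false) k := by
  intro y
  rw [hC]
  set x0 : Fin M → Bool := fun j => (hdr v k).getD j.1 false with hx0
  set x := asm (posF (v := v) hle) x0 y with hx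
  set Y : List Bool := List.ofFn (fun j : Fin N => x ⟨v + k + 2 + j.1, by omega⟩) with hY
  have hfull : List.ofFn x = hdr v k ++ Y := by
    apply List.ext_getElem
    · simp [hY, hdr_length, hM]
    · intro j h1 h2
      rw [List.getElem_ofFn]
      by_cases hj : j < (hdr v k).length
      · rw [List.getElem_append_left hj]
        have hout : ¬ ∃ i, InB (posF (v := v) hle) i ⟨j, by simpa using h1⟩ := by
          rintro ⟨i, e, _, he⟩
          have := congrArg Fin.val he
          simp only [posF] at this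
          rw [hdr_length] at hj
          omega
        have h3 : x ⟨j, by simpa using h1⟩ = x0 ⟨j, by simpa using h1⟩ := asm_out y hout
        refine h3.trans ?_
        simp only [hx0]
        rw [List.getD_eq_getElem _ _ hj]
      · rw [List.getElem_append_right (not_lt.1 hj)]
        simp only [hY, List.getElem_ofFn]
        congr 1
        apply Fin.ext
        simp only [hdr_length]
        rw [hdr_length] at hj
        omega
  rw [hfull, hdr_append, mem_L_hdr]
  have hYlen : Y.length = N := by simp [hY]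
  have hblock : ∀ (i : Fin m), (∃ S : Finset ℕ, S.card = k ∧ (∀ a ∈ S, a < v) ∧
      ∀ a ∈ S, ∀ b ∈ S, a < b → entry v Y i.1 a b = true) ↔ ¬ (y i).CliqueFree k := by
    intro i
    apply block_iff
    intro a b hab
    have h1 := pos_lt hle i a b
    have h2 : i.1 * (v * v) + a.1 * v + b.1 < Y.length := by rw [hYlen]; omega
    unfold entry
    rw [List.getD_eq_getElem _ _ h2]
    simp only [hY, List.getElem_ofFn]
    have h3 : (⟨v + k + 2 + (i.1 * (v * v) + a.1 * v + b.1), by omega⟩ : Fin M) =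
        posF hle i s(a, b) := by
      apply Fin.ext
      rw [posF_mk hle i hab]
    rw [h3, hx, asm_pos (posF_inj hle) y i _ (by simpa using hab.ne)]
    exact SimpleGraph.mem_edgeSet _
  unfold AllCliques
  rw [hYlen, ← hm]
  exact ⟨fun hall i => (hblock i).1 (hall i.1 i.2), fun hall j hj => (hblock ⟨j, hj⟩).2 (hall _)⟩

/-! ### Numbers -/

theorem pow12_lt : ∀ l : ℕ, 128 ≤ l → 202 * l ^ 12 ≤ 2 ^ (l - 2) := by
  intro l hl
  induction l, hl using Nat.le_induction with
  | base => norm_num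
  | succ l hl ih =>
    have h1 : 128 * (l + 1) ≤ 129 * l := by omega
    have h2 : 128 ^ 12 * (l + 1) ^ 12 ≤ 129 ^ 12 * l ^ 12 := by
      rw [← mul_pow, ← mul_pow]
      exact Nat.pow_le_pow_left h1 12
    have h3 : (129 : ℕ) ^ 12 ≤ 2 * 128 ^ 12 := by norm_num
    have h4 : 128 ^ 12 * (l + 1) ^ 12 ≤ 128 ^ 12 * (2 * l ^ 12) := by
      calc 128 ^ 12 * (l + 1) ^ 12 ≤ 129 ^ 12 * l ^ 12 := h2
        _ ≤ 2 * 128 ^ 12 * l ^ 12 := Nat.mul_le_mul_right _ h3
        _ = 128 ^ 12 * (2 * l ^ 12) := by ring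
    have h5 : (l + 1) ^ 12 ≤ 2 * l ^ 12 := Nat.le_of_mul_le_mul_left h4 (by positivity)
    have h6 : l + 1 - 2 = (l - 2) + 1 := by omega
    rw [h6, pow_succ]
    calc 202 * (l + 1) ^ 12 ≤ 202 * (2 * l ^ 12) := Nat.mul_le_mul_left _ h5
      _ = (202 * l ^ 12) * 2 := by ring
      _ ≤ 2 ^ (l - 2) * 2 := Nat.mul_le_mul_right _ ih

theorem sqrt_ge (c l : ℕ) (hl : (c + 4) * (c + 4) ≤ l) : l * (c + 4) ≤ Nat.sqrt (l ^ 3) := by
  rw [Nat.le_sqrt]
  calc l * (c + 4) * (l * (c + 4)) = l * l * ((c + 4) * (c + 4)) := by ring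
    _ ≤ l * l * l := Nat.mul_le_mul_left _ hl
    _ = l ^ 3 := by ring

/-- The lower bound. -/
theorem lower (c : ℕ) : ∃ N₀ : ℕ, ∀ N ≥ N₀, ∀ (n : ℕ) (C : Circuit (Fin N) n)
    (out : Wire (Fin N) n), n ≤ N ^ c → DecidesLang C out L →
    ∀ w, NegBounded C out w → N / (2 * (vN N * vN N)) ≤ w := by
  refine ⟨2 ^ (128 + (c + 4) * (c + 4)), ?_⟩
  intro M hN n C out hn hC w hw
  by_contra hlt
  push Not at hlt
  set l := Nat.size M with hl
  have hl1 : 128 + (c + 4) * (c + 4) < l := Nat.lt_size.2 hN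
  set v := vN M with hv
  have hvl : v = 200 * l ^ 12 := rfl
  set k := l ^ 3 with hkl
  have hM2 : M < 2 ^ l := Nat.lt_size_self M
  have hM1 : 2 ^ (l - 1) ≤ M := by
    apply Nat.lt_size.1
    omega
  have h12 := pow12_lt l (by omega)
  have hl3 : l ^ 3 + 2 ≤ 2 * l ^ 12 := by
    have e1 : l ^ 3 ≤ l ^ 12 := Nat.pow_le_pow_right (by omega) (by norm_num)
    have e2 : 1 < l ^ 12 := Nat.one_lt_pow (by norm_num) (by omega)
    omega
  have hhalf : 2 * (v + k + 2) ≤ M := by
    have e1 : v + k + 2 ≤ 202 * l ^ 12 := by rw [hvl, hkl]; omega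
    have e2 : 2 * 2 ^ (l - 2) = 2 ^ (l - 1) := by
      rw [← pow_succ']
      congr 1
      omega
    omega
  obtain ⟨N, hMN⟩ : ∃ N, M = v + k + 2 + N := ⟨M - (v + k + 2), by omega⟩
  set m := N / (v * v) with hm
  have hle : v + k + 2 + m * (v * v) ≤ M := by
    have := Nat.div_mul_le_self N (v * v)
    rw [← hm] at this
    omega
  have hwm : w < m := by
    refine lt_of_lt_of_le hlt ?_
    rw [← Nat.div_div_eq_div_mul]
    apply Nat.div_le_div_right
    omega
  have hk4 : 4 ≤ k := by
    rw [hkl]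
    calc 4 ≤ l := by omega
      _ = l ^ 1 := (pow_one l).symm
      _ ≤ l ^ 3 := Nat.pow_le_pow_right (by omega) (by norm_num)
  have hvk : 200 * k ^ 4 ≤ v := by
    rw [hkl, hvl, ← pow_mul]
  have hdec := decides_blocks hMN hm hle C out hC
  have hr : v.choose k < 2 ^ (v + 1) := by
    calc v.choose k ≤ 2 ^ v := Nat.choose_le_two_pow v k
      _ < 2 ^ (v + 1) := Nat.pow_lt_pow_right (by norm_num) (by omega)
  have hmain := main C out (r := v + 1) hk4 hvk hr (posF_inj hle) hdec (by
    intro x hx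
    obtain ⟨t, ht, hts, htw⟩ := hw x hx
    exact ⟨t, ht, hts, by omega⟩)
  -- numerical contradiction
  have hm2 : m ≤ 2 ^ l := (Nat.div_le_self _ _).trans (by omega)
  have hn2 : n + 1 ≤ 2 ^ (l * c + 1) := by
    have h1 : M ^ c ≤ (2 ^ l) ^ c := Nat.pow_le_pow_left hM2.le c
    rw [← pow_mul] at h1
    have h2 : 1 ≤ 2 ^ (l * c) := Nat.one_le_two_pow
    rw [pow_succ]
    omega
  have hv2 : v + 1 < 2 ^ (3 * l - 1) := by
    have e1 : v + 1 < 202 * l ^ 12 := by
      have e2 : 1 < l ^ 12 := Nat.one_lt_pow (by norm_num) (by omega)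
      rw [hvl]; omega
    have e3 : 2 ^ (l - 2) ≤ 2 ^ (3 * l - 1) := Nat.pow_le_pow_right (by norm_num) (by omega)
    omega
  have hs : l * (c + 4) ≤ Nat.sqrt k := by rw [hkl]; exact sqrt_ge c l (by omega)
  have h1 : 2 ^ (l * (c + 4)) ≤ 2 ^ Nat.sqrt k := Nat.pow_le_pow_right (by norm_num) hs
  have h2 : m * (v + 1) * (n + 1) < 2 ^ (l * (c + 4)) := by
    have h3 : l * (c + 4) = l + (3 * l - 1) + (l * c + 1) := by
      have : l * (c + 4) = l * c + 4 * l := by ring
      omega
    rw [h3, pow_add, pow_add]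
    have h4 : m * (v + 1) < 2 ^ l * 2 ^ (3 * l - 1) := by
      calc m * (v + 1) ≤ 2 ^ l * (v + 1) := Nat.mul_le_mul_right _ hm2
        _ < 2 ^ l * 2 ^ (3 * l - 1) := Nat.mul_lt_mul_of_pos_left hv2 (by positivity)
    calc m * (v + 1) * (n + 1) ≤ m * (v + 1) * 2 ^ (l * c + 1) := Nat.mul_le_mul_left _ hn2
      _ < 2 ^ l * 2 ^ (3 * l - 1) * 2 ^ (l * c + 1) := Nat.mul_lt_mul_of_pos_right h4 (by positivity)
  omega

end Pool.Agent.H634R2.Neg
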