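import Pool.Agent.H634R2.Neg.Defs
import Pool.Agent.NPC.Defs

/-!
# An `NP`-complete language, and circuits with bounded use of negations: definitions
-/

namespace Pool.Agent.H634R2.Neg

/-- The entry `(a, b)` of the `j`-th adjacency matrix (with `v` vertices) read in the string
`y`. -/
def entry (v : ℕ) (y : List Bool) (j a b : ℕ) : Bool := y.getD (j * (v * v) + a * v + b) false

/-- The string `y` is cut into blocks of `v²` bits, each block is read as (the entries above the
diagonal of) the adjacency matrix of a graph on the vertices `0, …, v - 1`. Every one of these
graphs has a clique with `k` vertices. -/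
def AllCliques (v k : ℕ) (y : List Bool) : Prop :=
  ∀ j < y.length / (v * v), ∃ S : Finset ℕ, S.card = k ∧ (∀ a ∈ S, a < v) ∧
    ∀ a ∈ S, ∀ b ∈ S, a < b → entry v y j a b = true

/-- The number of leading ones of a bit string. -/
def ones (x : List Bool) : ℕ := (x.takeWhile id).length

/-- What remains of a bit string after its leading ones and the next bit. -/
def after (x : List Bool) : List Bool := x.drop (ones x + 1)

/-- The language `L`: a string is parsed as `1^v 0 1^k 0 y`; it belongs to the language if all the
graphs on `v` vertices read in `y` have a clique with `k` vertices. -/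
def L : Set (List Bool) := {x | AllCliques (ones x) (ones (after x)) (after (after x))}

/-- `200 l ^ 12`, where `l` is the bit length of `N`. -/
def vN (N : ℕ) : ℕ := 200 * Nat.size N ^ 12

/-- The circuit decides the language `A` on strings of length `N`. -/
def DecidesLang {N n : ℕ} (C : Circuit (Fin N) n) (out : Wire (Fin N) n)
    (A : Set (List Bool)) : Prop :=
  ∀ x : Fin N → Bool, out.eval x (C.vals x) = true ↔ List.ofFn x ∈ A

/-- Every input accepted by the circuit satisfies a term produced by the circuit that contains at
most `w` negated variables. -/
def NegBounded {ι : Type*} [DecidableEq ι] {n : ℕ} (C : Circuit ι n) (out : Wire ι n) (w : ℕ) :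
    Prop :=
  ∀ x : ι → Bool, out.eval x (C.vals x) = true →
    ∃ t ∈ out.terms C.terms, t.Sat x ∧ t.neg.card ≤ w

end Pool.Agent.H634R2.Neg
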