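import Pool.Agent.H634R2.Neg.Circ

/-!
# The combinatorial lower bound for negation width
-/

namespace Pool.Agent.H634R2.Neg

open Finset
open Pool.Agent.H520R2 (MProg MComp GB adjFn cliqueFn clique_mono_lower)

section core

variable {ι : Type*} {m v : ℕ} (pos : Fin m → Sym2 (Fin v) → ι)

/-- The variable `j` belongs to block `i`. -/
def InB (i : Fin m) (j : ι) : Prop := ∃ e : Sym2 (Fin v), ¬ e.IsDiag ∧ pos i e = j

open Classical in
/-- The input with given graphs in the blocks, and the values `x0` elsewhere. -/
noncomputable def asm (x0 : ι → Bool) (y : Fin m → SimpleGraph (Fin v)) : ι → Bool :=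
  fun j => if ∃ i, InB pos i j then decide (∃ i, ∃ e ∈ (y i).edgeSet, pos i e = j) else x0 j

/-- The blocks are disjoint, different edges have different variables. -/
def Inj : Prop := ∀ i i' e e', ¬ e.IsDiag → ¬ e'.IsDiag → pos i e = pos i' e' → i = i' ∧ e = e'

variable {pos} {x0 : ι → Bool}

theorem asm_in (y : Fin m → SimpleGraph (Fin v)) {i : Fin m} {j : ι} (h : InB pos i j) :
    asm pos x0 y j = true ↔ ∃ i, ∃ e ∈ (y i).edgeSet, pos i e = j := by
  classical
  unfold asm
  rw [if_pos ⟨i, h⟩, decide_eq_true_eq]

theorem asm_out (y : Fin m → SimpleGraph (Fin v)) {j : ι} (h : ¬ ∃ i, InB pos i j) :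
    asm pos x0 y j = x0 j := by
  classical
  unfold asm
  rw [if_neg h]

theorem asm_pos (hp : Inj pos) (y : Fin m → SimpleGraph (Fin v)) (i : Fin m) (e : Sym2 (Fin v))
    (he : ¬ e.IsDiag) : asm pos x0 y (pos i e) = true ↔ e ∈ (y i).edgeSet := by
  rw [asm_in y (i := i) ⟨e, he, rfl⟩]
  constructor
  · rintro ⟨i', e', he', heq⟩
    obtain ⟨rfl, rfl⟩ := hp i' i e' e (SimpleGraph.not_isDiag_of_mem_edgeSet _ he') he heq
    exact he'
  · intro h
    exact ⟨i, e, h, rfl⟩

theorem asm_mono (y y' : Fin m → SimpleGraph (Fin v)) (h : ∀ i, y i ≤ y' i) (j : ι)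
    (hj : asm pos x0 y j = true) : asm pos x0 y' j = true := by
  by_cases hB : ∃ i, InB pos i j
  · obtain ⟨i, hi⟩ := hB
    rw [asm_in _ hi] at *
    obtain ⟨i, e, he, heq⟩ := hj
    exact ⟨i, e, SimpleGraph.edgeSet_mono (h i) he, heq⟩
  · rw [asm_out _ hB] at *
    exact hj

theorem asm_update (y : Fin m → SimpleGraph (Fin v)) (i : Fin m)
    (G G' : SimpleGraph (Fin v)) (j : ι) (hj : ¬ InB pos i j) :
    asm pos x0 (Function.update y i G) j = asm pos x0 (Function.update y i G') j := by
  have key : ∀ G G' : SimpleGraph (Fin v), asm pos x0 (Function.update y i G) j = true →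
      asm pos x0 (Function.update y i G') j = true := by
    intro G G' h
    by_cases hB : ∃ i, InB pos i j
    · obtain ⟨i0, hi0⟩ := hB
      rw [asm_in _ hi0] at *
      obtain ⟨i', e, he, heq⟩ := h
      by_cases hi : i' = i
      · subst hi
        exact absurd ⟨e, SimpleGraph.not_isDiag_of_mem_edgeSet _ he, heq⟩ hj
      · rw [Function.update_of_ne hi] at he
        exact ⟨i', e, by rw [Function.update_of_ne hi]; exact he, heq⟩
    · rw [asm_out _ hB] at *
      exact h
  exact Bool.eq_iff_iff.2 ⟨key G G', key G' G⟩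

/-- The clique on a set. -/
def cl (b : Finset (Fin v)) : SimpleGraph (Fin v) where
  Adj u w := u ≠ w ∧ u ∈ b ∧ w ∈ b
  symm := ⟨fun _ _ h => ⟨h.1.symm, h.2.2, h.2.1⟩⟩
  loopless := ⟨fun _ h => h.1 rfl⟩

theorem cl_le {k : ℕ} {G : SimpleGraph (Fin v)} {b : Finset (Fin v)} (h : G.IsNClique k b) :
    cl b ≤ G := by
  intro u w huw
  exact h.isClique huw.2.1 huw.2.2 huw.1

theorem cl_not_free {k : ℕ} {b : Finset (Fin v)} (hb : b.card = k) :
    ¬ (cl b).CliqueFree k := by
  intro h
  apply h b
  rw [SimpleGraph.isNClique_iff]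
  exact ⟨fun u hu w hw hne => ⟨hne, hu, hw⟩, hb⟩

open Classical in
/-- The values of the negated variables when those of block `i` are switched off. -/
noncomputable def offN (pos : Fin m → Sym2 (Fin v) → ι) (x0 : ι → Bool)
    (y : Fin m → SimpleGraph (Fin v)) (i : Fin m) : ι → Bool :=
  fun j => if InB pos i j then false else !asm pos x0 y j

variable {n : ℕ} (C : Circuit ι n) (out : Wire ι n)

/-- The function computed on block `i` when the negated variables of this block are switched
off. -/
noncomputable def hfun (pos : Fin m → Sym2 (Fin v) → ι) (x0 : ι → Bool)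
    (y : Fin m → SimpleGraph (Fin v)) (i : Fin m) : SimpleGraph (Fin v) → Bool :=
  fun G => out.eval2 (asm pos x0 (Function.update y i G)) (offN pos x0 y i)
    (C.vals2 (asm pos x0 (Function.update y i G)) (offN pos x0 y i))

theorem offN_update (y : Fin m → SimpleGraph (Fin v)) (i : Fin m) (G : SimpleGraph (Fin v)) :
    offN pos x0 (Function.update y i G) i = offN pos x0 y i := by
  funext j
  unfold offN
  split_ifs with h
  · rfl
  · rw [asm_update y i G (y i) j h, Function.update_eq_self]

theorem hfun_update (y : Fin m → SimpleGraph (Fin v)) (i : Fin m) (G : SimpleGraph (Fin v)) :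
    hfun C out pos x0 (Function.update y i G) i = hfun C out pos x0 y i := by
  funext G'
  unfold hfun
  rw [offN_update, Function.update_idem]

theorem hfun_mono (y : Fin m → SimpleGraph (Fin v)) (i : Fin m) {G G' : SimpleGraph (Fin v)}
    (h : G ≤ G') (hG : hfun C out pos x0 y i G = true) : hfun C out pos x0 y i G' = true := by
  unfold hfun at *
  have hx : ∀ j, asm pos x0 (Function.update y i G) j = true →
      asm pos x0 (Function.update y i G') j = true := by
    intro j
    apply asm_mono
    intro i'
    by_cases hi : i' = i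
    · subst hi; simpa using h
    · simp [Function.update_of_ne hi]
  exact eval2_mono out hx (fun _ h => h) (vals2_mono C hx (fun _ h => h)) hG

theorem hfun_comp (hp : Inj pos) (y : Fin m → SimpleGraph (Fin v)) (i : Fin m) :
    MComp (GB (Fin v)) n (hfun C out pos x0 y i) := by
  classical
  obtain ⟨L, hL, hlen, hw⟩ := prog (B := GB (Fin v)) (fun b => Or.inl ⟨b, rfl⟩)
    (fun G => asm pos x0 (Function.update y i G)) (fun _ => offN pos x0 y i) (by
      intro j
      by_cases hj : InB pos i j
      · obtain ⟨e, he, rfl⟩ := hj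
        right
        induction e using Sym2.ind with
        | _ a b =>
          refine ⟨a, b, ?_⟩
          funext G
          rw [Bool.eq_iff_iff, asm_pos hp _ i _ he, Function.update_self]
          simp [adjFn]
      · left
        refine ⟨asm pos x0 y j, ?_⟩
        funext G
        rw [asm_update y i G (y i) j hj, Function.update_eq_self])
    (fun j => Or.inl ⟨_, rfl⟩) C
  exact ⟨L, hL, hlen.le, hw out⟩

/-- The circuit decides whether all blocks contain a `k`-clique. -/
def Decides (pos : Fin m → Sym2 (Fin v) → ι) (x0 : ι → Bool) (k : ℕ) : Prop :=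
  ∀ y : Fin m → SimpleGraph (Fin v),
    out.eval (asm pos x0 y) (C.vals (asm pos x0 y)) = true ↔ ∀ i, ¬ (y i).CliqueFree k

theorem hfun_sound {k : ℕ} (hC : Decides C out pos x0 k)
    (y : Fin m → SimpleGraph (Fin v)) (i : Fin m) (G : SimpleGraph (Fin v))
    (h : hfun C out pos x0 y i G = true) : ¬ G.CliqueFree k := by
  unfold hfun at h
  set x := asm pos x0 (Function.update y i G) with hx
  have h1 : ∀ j, offN pos x0 y i j = true → (!x j) = true := by
    intro j hj
    unfold offN at hj
    split_ifs at hj with hB
    rw [hx, asm_update y i G (y i) j hB, Function.update_eq_self]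
    exact hj
  have h2 := eval2_mono out (fun _ h => h) h1 (vals2_mono C (x := x) (x' := x) (fun _ h => h) h1) h
  rw [vals2_not, eval2_not] at h2
  have h3 := (hC _).1 h2 i
  rw [Function.update_self] at h3
  exact h3

variable [DecidableEq ι]

/-- Every tuple of cliques is accepted in some block without negated variables of this block. -/
theorem exists_block {k : ℕ} (hp : Inj pos) (hC : Decides C out pos x0 k)
    (hneg : ∀ x : ι → Bool, out.eval x (C.vals x) = true →
      ∃ t ∈ out.terms C.terms, t.Sat x ∧ t.neg.card < m)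
    (p : Fin m → Finset (Fin v)) (hpk : ∀ i, (p i).card = k) :
    ∃ i, hfun C out pos x0 (fun i => cl (p i)) i (cl (p i)) = true := by
  classical
  set y : Fin m → SimpleGraph (Fin v) := fun i => cl (p i) with hy
  set x := asm pos x0 y with hx
  have hacc : out.eval x (C.vals x) = true := by
    rw [hx, hC y]
    intro i
    exact cl_not_free (hpk i)
  obtain ⟨t, ht, ⟨ht1, ht2⟩, hcard⟩ := hneg x hacc
  have hex : ∃ i : Fin m, ∀ j ∈ t.neg, ¬ InB pos i j := by
    by_contra hcon
    push Not at hcon
    choose f hf hfB using hcon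
    have hinj : Function.Injective f := by
      intro i i' hii
      obtain ⟨e, he, h1⟩ := hfB i
      obtain ⟨e', he', h2⟩ := hfB i'
      exact (hp i i' e e' he he' (h1.trans (hii.trans h2.symm))).1
    have : Fintype.card (Fin m) ≤ t.neg.card := by
      rw [← Finset.card_univ, ← Finset.card_image_of_injective univ hinj]
      apply Finset.card_le_card
      intro j hj
      obtain ⟨i, _, rfl⟩ := Finset.mem_image.1 hj
      exact hf i
    rw [Fintype.card_fin] at this
    omega
  obtain ⟨i, hi⟩ := hex
  refine ⟨i, ?_⟩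
  unfold hfun
  have hupd : Function.update y i (cl (p i)) = y := Function.update_eq_self i y
  rw [hupd]
  apply wire_terms (circuit_terms C) out t ht ht1
  intro j hj
  unfold offN
  rw [if_neg (hi j hj), ← hx, ht2 j hj]
  rfl

/-- The main combinatorial theorem. -/
theorem main {k r : ℕ} (hk : 4 ≤ k) (hv : 200 * k ^ 4 ≤ v) (hr : v.choose k < 2 ^ r)
    (hp : Inj pos) (hC : Decides C out pos x0 k)
    (hneg : ∀ x : ι → Bool, out.eval x (C.vals x) = true →
      ∃ t ∈ out.terms C.terms, t.Sat x ∧ t.neg.card < m) :
    2 ^ Nat.sqrt k ≤ m * r * (n + 1) := by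
  classical
  have hm : 0 < m := by
    obtain ⟨b, _, hb⟩ := exists_subset_card_eq (s := (univ : Finset (Fin v))) (n := k) (by
      simp only [card_univ, Fintype.card_fin]
      have : k ≤ 200 * k ^ 4 := by
        calc k = k ^ 1 := (pow_one k).symm
          _ ≤ k ^ 4 := Nat.pow_le_pow_right (by omega) (by omega)
          _ ≤ 200 * k ^ 4 := by omega
      omega)
    obtain ⟨i, _⟩ := exists_block C out hp hC hneg (fun _ => b) (fun _ => hb)
    exact i.pos
  obtain ⟨L, hL, hcov⟩ := greedy (m := m)
    (fun i p b => hfun C out pos x0 (fun i => cl (p i)) i (cl b) = true) (by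
      intro i p a
      funext b
      have : (fun i' => cl (Function.update p i a i')) =
          Function.update (fun i' => cl (p i')) i (cl a) := by
        funext i'
        by_cases h : i' = i
        · subst h; simp
        · simp [Function.update_of_ne h]
      rw [this, hfun_update])
    (m * r) (powersetCard k (univ : Finset (Fin v)))
    (fun p hpk => exists_block C out hp hC hneg p (fun i => (mem_powersetCard.1 (hpk i)).2))
    (by
      apply steps_bound m r _ hm
      rw [card_powersetCard, card_univ, Fintype.card_fin]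
      exact hr)
  have hfun_eq : cliqueFn (Fin v) k = (fun G => L.any (fun z =>
      hfun C out pos x0 (fun i => cl (z.2 i)) z.1 G)) := by
    funext G
    rw [Bool.eq_iff_iff, List.any_eq_true]
    simp only [cliqueFn, decide_eq_true_eq]
    constructor
    · intro hG
      rw [SimpleGraph.CliqueFree] at hG
      push Not at hG
      obtain ⟨b, hb⟩ := hG
      obtain ⟨z, hz, hzb⟩ := hcov b (mem_powersetCard.2 ⟨subset_univ _, hb.card_eq⟩)
      exact ⟨z, hz, hfun_mono C out _ _ (cl_le hb) hzb⟩
    · rintro ⟨z, _, hz⟩
      exact hfun_sound C out hC _ _ G hz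
  have hcomp := any_comp (B := GB (Fin v)) (Or.inl ⟨false, rfl⟩) (s := n)
    (fun (z : Fin m × (Fin m → Finset (Fin v))) => hfun C out pos x0 (fun i => cl (z.2 i)) z.1) L
    (fun z _ => hfun_comp C out hp _ _)
  rw [← hfun_eq] at hcomp
  have := clique_mono_lower (by simpa using hv) hcomp hk
  calc 2 ^ Nat.sqrt k ≤ L.length * (n + 1) := this
    _ ≤ m * r * (n + 1) := Nat.mul_le_mul_right _ hL

end core

end Pool.Agent.H634R2.Neg
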